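import Pool.Agent.Y262.EX.Stm

/-!
# Project EX: the unit tangent bundle as a quotient
-/

set_option autoImplicit false

open Set Filter Topology
open scoped ContDiff ComplexConjugate Real

namespace Pool.Agent.Y848.EX

open Pool.Agent.Y262.EG Pool.Agent.Y262.EX

theorem exists_un (w : ℂ) : ∃ u : Circle, w ≠ 0 → (u : ℂ) = w / ‖w‖ := by
  by_cases h : w = 0
  · exact ⟨1, fun h' => absurd h h'⟩
  · exact ⟨⟨w / ‖w‖, by simp [Submonoid.unitSphere, h]⟩, fun _ => rfl⟩

/-- the direction of a complex number -/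
noncomputable def un (w : ℂ) : Circle := (exists_un w).choose

theorem coe_un {w : ℂ} (h : w ≠ 0) : (un w : ℂ) = w / ‖w‖ := (exists_un w).choose_spec h

theorem un_one : un 1 = 1 := by
  apply Circle.ext
  rw [coe_un one_ne_zero]
  simp

theorem un_mul {w w' : ℂ} (h : w ≠ 0) (h' : w' ≠ 0) : un (w * w') = un w * un w' := by
  apply Circle.ext
  rw [Circle.coe_mul, coe_un h, coe_un h', coe_un (mul_ne_zero h h'), norm_mul]
  push_cast
  rw [mul_div_mul_comm]

theorem continuous_un {X : Type} [TopologicalSpace X] {f : X → ℂ} (hf : Continuous f)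
    (h0 : ∀ x, f x ≠ 0) : Continuous (fun x => un (f x)) := by
  have h1 : Continuous (fun x => ((un (f x) : Circle) : ℂ)) := by
    have e : (fun x => ((un (f x) : Circle) : ℂ)) = fun x => f x / ‖f x‖ := by
      funext x
      exact coe_un (h0 x)
    rw [e]
    exact hf.div (Complex.continuous_ofReal.comp hf.norm)
      (fun x => Complex.ofReal_ne_zero.2 (norm_ne_zero_iff.2 (h0 x)))
  exact Topology.IsInducing.subtypeVal.continuous_iff.2 h1

section

variable {G : Type} [Group G] {Ω : Set ℂ} {a : G → ℂ → ℂ}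

theorem deriv_one' (hA : Act G Ω a) {z : ℂ} (hz : z ∈ Ω) : deriv (a 1) z = 1 := by
  have h1 : a 1 =ᶠ[𝓝 z] id := by
    filter_upwards [hA.opn.mem_nhds hz] with w hw
    exact hA.one w hw
  rw [h1.deriv_eq, deriv_id]

theorem deriv_mul' (hA : Act G Ω a) (γ γ' : G) {z : ℂ} (hz : z ∈ Ω) :
    deriv (a (γ * γ')) z = deriv (a γ) (a γ' z) * deriv (a γ') z := by
  have h1 : a (γ * γ') =ᶠ[𝓝 z] (a γ) ∘ (a γ') := by
    filter_upwards [hA.opn.mem_nhds hz] with w hw
    exact hA.mul γ γ' w hw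
  rw [h1.deriv_eq]
  exact deriv_comp z ((hA.hol γ).differentiableAt (hA.opn.mem_nhds (hA.maps γ' z hz)))
    ((hA.hol γ').differentiableAt (hA.opn.mem_nhds hz))

/-- the action on the unit tangent bundle of the domain -/
@[reducible]
noncomputable def actP (hA : Act G Ω a) (hd : ∀ γ, ∀ z ∈ Ω, deriv (a γ) z ≠ 0) :
    MulAction G (Ω × Circle) where
  smul γ x := (⟨a γ x.1, hA.maps γ x.1 x.1.2⟩, x.2 * un (deriv (a γ) x.1))
  one_smul := by
    rintro ⟨⟨z, hz⟩, u⟩
    apply Prod.ext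
    · apply Subtype.ext
      exact hA.one z hz
    · change u * un (deriv (a 1) z) = u
      rw [deriv_one' hA hz, un_one, mul_one]
  mul_smul := by
    rintro γ γ' ⟨⟨z, hz⟩, u⟩
    apply Prod.ext
    · apply Subtype.ext
      exact hA.mul γ γ' z hz
    · change u * un (deriv (a (γ * γ')) z) =
        u * un (deriv (a γ') z) * un (deriv (a γ) (a γ' z))
      rw [deriv_mul' hA γ γ' hz, un_mul (hd γ _ (hA.maps γ' z hz)) (hd γ' z hz), mul_assoc,
        mul_comm (un (deriv (a γ) (a γ' z)))]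

end

theorem qP : StTop → StQP := by
  intro hTop G _ Ω a hA hd
  classical
  have hlc : LocallyCompactSpace Ω := hA.opn.locallyCompactSpace
  let _ := actP hA hd
  have hsm : ∀ (γ : G) (x : Ω × Circle), γ • x =
      ((⟨a γ x.1, hA.maps γ x.1 x.1.2⟩ : Ω), x.2 * un (deriv (a γ) x.1)) := fun γ x => rfl
  obtain ⟨Q, iM, iC, p, hpc, hpo, hps, hrel⟩ := hTop (Ω × Circle) G
    (by
      intro γ
      have h1 : Continuous (fun x : Ω × Circle => a γ x.1) :=
        (continuousOn_iff_continuous_domRestrict.1 (hA.hol γ).continuousOn).comp continuous_fst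
      have h2 : Continuous (fun x : Ω × Circle => deriv (a γ) x.1) :=
        (continuousOn_iff_continuous_domRestrict.1
          ((hA.hol γ).deriv hA.opn).continuousOn).comp continuous_fst
      exact (h1.subtype_mk _).prodMk
        (continuous_snd.mul (continuous_un h2 (fun x => hd γ x.1 x.1.2))))
    (by
      intro K hK
      have h1 : IsCompact ((fun x : Ω × Circle => (x.1 : ℂ)) '' K) :=
        hK.image (continuous_subtype_val.comp continuous_fst)
      have h2 : (fun x : Ω × Circle => (x.1 : ℂ)) '' K ⊆ Ω := by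
        rintro _ ⟨x, _, rfl⟩
        exact x.1.2
      refine (hA.fin _ h1 h2).subset ?_
      rintro γ ⟨_, ⟨x, hx, rfl⟩, hy⟩
      exact ⟨a γ x.1, ⟨x.1, ⟨x, hx, rfl⟩, rfl⟩, ⟨γ • x, hy, rfl⟩⟩)
    (by
      obtain ⟨K, hK, hKΩ, hcov⟩ := hA.cpt
      refine ⟨(Subtype.val ⁻¹' K) ×ˢ univ, ?_, ?_⟩
      · apply IsCompact.prod _ isCompact_univ
        rw [Subtype.isCompact_iff, Subtype.image_preimage_coe, inter_eq_right.2 hKΩ]
        exact hK
      · intro x
        obtain ⟨γ, hγ⟩ := hcov x.1 x.1.2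
        exact ⟨γ, hγ, mem_univ _⟩)
  obtain ⟨z0, hz0⟩ := hA.ne
  set q : Y → Q := fun y => if h : y.1 ∈ Ω then p (⟨y.1, h⟩, Circle.exp y.2)
    else p (⟨z0, hz0⟩, 1) with hq
  have hqv : ∀ (z : ℂ) (h : z ∈ Ω) (θ : ℝ), q (z, θ) = p (⟨z, h⟩, Circle.exp θ) := by
    intro z h θ
    simp only [hq]
    rw [dif_pos h]
  refine ⟨Q, iM, iC, q, ?_, ?_, ?_, ?_⟩
  · -- continuity
    rw [continuousOn_iff_continuous_domRestrict]
    have e : (YO Ω).domRestrict q = p ∘ (fun y : YO Ω => ((⟨y.1.1, y.2⟩ : Ω), Circle.exp y.1.2)) := by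
      funext y
      exact hqv y.1.1 y.2 y.1.2
    rw [e]
    apply hpc.comp
    apply Continuous.prodMk
    · exact (continuous_fst.comp continuous_subtype_val).subtype_mk _
    · exact Circle.exp.continuous.comp (continuous_snd.comp continuous_subtype_val)
  · -- open images
    intro O hO hOs
    have h1 : IsOpen {x : Ω × ℝ | ((x.1 : ℂ), x.2) ∈ O} :=
      hO.preimage ((continuous_subtype_val.comp continuous_fst).prodMk continuous_snd)
    have h2 : IsOpenMap (Prod.map (id : Ω → Ω) (Circle.exp : ℝ → Circle)) :=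
      IsOpenMap.id.prodMap isLocalHomeomorph_circleExp.isOpenMap
    have h3 := hpo _ (h2 _ h1)
    have e : q '' O = p '' (Prod.map (id : Ω → Ω) (Circle.exp : ℝ → Circle) ''
        {x : Ω × ℝ | ((x.1 : ℂ), x.2) ∈ O}) := by
      ext s
      constructor
      · rintro ⟨⟨z, θ⟩, hy, rfl⟩
        have hz : z ∈ Ω := hOs hy
        exact ⟨_, ⟨(⟨z, hz⟩, θ), hy, rfl⟩, (hqv z hz θ).symm⟩
      · rintro ⟨_, ⟨⟨⟨z, hz⟩, θ⟩, hy, rfl⟩, rfl⟩
        exact ⟨(z, θ), hy, hqv z hz θ⟩
    rw [e]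
    exact h3
  · -- surjectivity
    apply eq_univ_of_forall
    intro s
    obtain ⟨⟨⟨z, hz⟩, u⟩, rfl⟩ := hps s
    refine ⟨(z, Complex.arg u), hz, ?_⟩
    rw [hqv z hz, Circle.exp_arg]
  · -- the relation
    rintro ⟨z, θ⟩ hz ⟨z', θ'⟩ hz'
    rw [hqv z hz, hqv z' hz', hrel]
    apply exists_congr
    intro γ
    rw [hsm, Prod.ext_iff, Subtype.ext_iff]
    apply and_congr Iff.rfl
    have hd0 := hd γ z hz
    have hn : ((‖deriv (a γ) z‖ : ℝ) : ℂ) ≠ 0 := Complex.ofReal_ne_zero.2 (norm_ne_zero_iff.2 hd0)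
    rw [← Circle.coe_inj, Circle.coe_mul, coe_un hd0, Circle.coe_exp, Circle.coe_exp]
    change Complex.exp (θ * Complex.I) * (deriv (a γ) z / ‖deriv (a γ) z‖) =
      Complex.exp (θ' * Complex.I) ↔ Complex.exp (θ' * Complex.I) * ‖deriv (a γ) z‖ =
        Complex.exp (θ * Complex.I) * deriv (a γ) z
    rw [mul_div_assoc', div_eq_iff hn, eq_comm]

end Pool.Agent.Y848.EX
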